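import Mathlib

/-!
# Pell numbers: squares of primes dividing them

`H j + P j √2 = (1 + √2) ^ j`.  For odd `j` with `3 ∣ j` consider `j' = 3 ∏_{p ∣ P j} p`.  If all
primes `≠ 3` of `j` divide `P j` and `j / 3` is squarefree and prime to three, then `j ∣ j'`, `j'`
has the same property, `j < j'`, and `(j' / 3) ^ 2 ∣ P j'`.
-/

set_option autoImplicit false

namespace Pool.Agent.Q259.PW

open Finset

/-- `(H j, P j)` -/
def hp : ℕ → ℕ × ℕ
  | 0 => (1, 0)
  | j + 1 => ((hp j).1 + 2 * (hp j).2, (hp j).1 + (hp j).2)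

def H (j : ℕ) : ℕ := (hp j).1
def P (j : ℕ) : ℕ := (hp j).2

@[simp] lemma H_zero : H 0 = 1 := rfl
@[simp] lemma P_zero : P 0 = 0 := rfl
lemma H_succ (j : ℕ) : H (j + 1) = H j + 2 * P j := rfl
lemma P_succ (j : ℕ) : P (j + 1) = H j + P j := rfl
lemma H_one : H 1 = 1 := rfl
lemma P_one : P 1 = 1 := rfl

lemma add_form (a b : ℕ) : H (a + b) = H a * H b + 2 * P a * P b ∧
    P (a + b) = H a * P b + P a * H b := by
  induction b with
  | zero => simp
  | succ b ih =>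
    obtain ⟨h1, h2⟩ := ih
    rw [← add_assoc, H_succ, P_succ, H_succ, P_succ, h1, h2]
    constructor <;> ring

lemma norm_even (k : ℕ) : H (2 * k) ^ 2 = 2 * P (2 * k) ^ 2 + 1 ∧
    H (2 * k + 1) ^ 2 + 1 = 2 * P (2 * k + 1) ^ 2 := by
  induction k with
  | zero => simp [H_one, P_one]
  | succ k ih =>
    obtain ⟨h1, h2⟩ := ih
    have e1 : 2 * (k + 1) = 2 * k + 1 + 1 := by ring
    rw [e1]
    have h3 : H (2 * k + 1 + 1) ^ 2 = 2 * P (2 * k + 1 + 1) ^ 2 + 1 := by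
      rw [H_succ (2 * k + 1), P_succ (2 * k + 1)]
      nlinarith [h2]
    refine ⟨h3, ?_⟩
    rw [H_succ (2 * k + 1 + 1), P_succ (2 * k + 1 + 1)]
    nlinarith [h3]

lemma H_pos (j : ℕ) : 1 ≤ H j := by
  induction j with
  | zero => simp
  | succ j ih => rw [H_succ]; omega

lemma P_pos (j : ℕ) (hj : 1 ≤ j) : 1 ≤ P j := by
  obtain ⟨i, rfl⟩ := Nat.exists_eq_add_of_le' hj
  rw [P_succ]
  have := H_pos i
  omega

/-- the neighbour identity -/
lemma neighbour (k : ℕ) : P (2 * k + 1) * P (2 * k + 3) = P (2 * k + 2) ^ 2 + 1 := by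
  have h := (norm_even k).2
  have e1 : P (2 * k + 2) = H (2 * k + 1) + P (2 * k + 1) := P_succ _
  have e2 : P (2 * k + 3) = H (2 * k + 2) + P (2 * k + 2) := P_succ _
  have e3 : H (2 * k + 2) = H (2 * k + 1) + 2 * P (2 * k + 1) := H_succ _
  rw [e2, e3, e1]
  nlinarith [h]

lemma coprime_HP (j : ℕ) : Nat.Coprime (H j) (P j) := by
  rcases Nat.even_or_odd' j with ⟨k, rfl | rfl⟩
  · have h := (norm_even k).1
    refine Nat.coprime_of_dvd fun p hp h1 h2 => ?_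
    have h3 : p ∣ 2 * P (2 * k) ^ 2 := Dvd.dvd.mul_left (dvd_pow h2 two_ne_zero) _
    have h4 : p ∣ 2 * P (2 * k) ^ 2 + 1 := h ▸ dvd_pow h1 two_ne_zero
    exact hp.one_lt.ne' (Nat.dvd_one.1 ((Nat.dvd_add_right h3).1 h4))
  · have h := (norm_even k).2
    refine Nat.coprime_of_dvd fun p hp h1 h2 => ?_
    have h3 : p ∣ H (2 * k + 1) ^ 2 := dvd_pow h1 two_ne_zero
    have h4 : p ∣ H (2 * k + 1) ^ 2 + 1 := h ▸ Dvd.dvd.mul_left (dvd_pow h2 two_ne_zero) _
    exact hp.one_lt.ne' (Nat.dvd_one.1 ((Nat.dvd_add_right h3).1 h4))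

/-- the expansion modulo `P m ^ 2` -/
lemma expand (m t : ℕ) : ∃ a b : ℕ, H (m * t) = H m ^ t + P m ^ 2 * a ∧
    P (m * (t + 1)) = (t + 1) * H m ^ t * P m + P m ^ 2 * b := by
  induction t with
  | zero => exact ⟨0, 0, by simp, by simp⟩
  | succ t ih =>
    obtain ⟨a, b, h1, h2⟩ := ih
    have h3 := (add_form (m * t) m).1
    have h4 := (add_form (m * (t + 1)) m).2
    have h6 : ∃ c, P (m * t) = P m * c := by
      rcases Nat.eq_zero_or_pos t with rfl | ht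
      · exact ⟨0, by simp⟩
      · have : ∀ s, ∃ c, P (m * s) = P m * c := by
          intro s
          induction s with
          | zero => exact ⟨0, by simp⟩
          | succ s ih =>
            obtain ⟨c, hc⟩ := ih
            refine ⟨H (m * s) + c * H m, ?_⟩
            rw [mul_add, mul_one, (add_form (m * s) m).2, hc]
            ring
        exact this t
    obtain ⟨c, hc⟩ := h6
    have h5 : H (m * (t + 1)) = H m ^ (t + 1) + P m ^ 2 * (a * H m + 2 * c) := by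
      rw [mul_add, mul_one, h3, h1, hc]
      ring
    refine ⟨a * H m + 2 * c, (a * H m + 2 * c) * P m + b * H m, h5, ?_⟩
    rw [show m * (t + 1 + 1) = m * (t + 1) + m by ring, h4, h5, h2]
    ring

lemma P_dvd {a b : ℕ} (h : a ∣ b) : P a ∣ P b := by
  obtain ⟨s, rfl⟩ := h
  induction s with
  | zero => simp
  | succ s ih =>
    rw [mul_add, mul_one, (add_form (a * s) a).2]
    exact dvd_add (Dvd.intro_left _ rfl) (Dvd.dvd.mul_right ih _)

/-- `p ∣ P a → p ^ 2 ∣ P (a p)` -/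
lemma sq_dvd {p a : ℕ} (hp : 1 ≤ p) (h : p ∣ P a) : p ^ 2 ∣ P (a * p) := by
  obtain ⟨t, rfl⟩ := Nat.exists_eq_add_of_le' hp
  obtain ⟨x, y, _, h2⟩ := expand a t
  rw [h2]
  obtain ⟨c, hc⟩ := h
  rw [hc]
  exact ⟨H a ^ t * c + c ^ 2 * y, by ring⟩

/-- the set of indices is closed under subtraction -/
lemma dvd_sub {p a b : ℕ} (hp : p.Prime) (ha : p ∣ P (a + b)) (hb : p ∣ P b) : p ∣ P a := by
  rw [(add_form a b).2] at ha
  have h1 : p ∣ P a * H b := (Nat.dvd_add_right (Dvd.dvd.mul_left hb _)).1 ha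
  rcases hp.dvd_mul.1 h1 with h | h
  · exact h
  · exact absurd (Nat.eq_one_of_dvd_coprimes (coprime_HP b) h hb) hp.one_lt.ne'

lemma dvd_gcd {p : ℕ} (hp : p.Prime) (a b : ℕ) (ha : p ∣ P a) (hb : p ∣ P b) :
    p ∣ P (Nat.gcd a b) := by
  induction a, b using Nat.gcd.induction with
  | H0 n => simpa using hb
  | H1 m n hm ih =>
    rw [Nat.gcd_rec]
    refine ih ?_ ha
    have h1 : p ∣ P (m * (n / m)) := ha.trans (P_dvd (Dvd.intro _ rfl))
    refine dvd_sub hp ?_ h1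
    rwa [Nat.mod_add_div]

/-- the powers of `1 + √2` -/
lemma zs (j : ℕ) : (⟨1, 1⟩ : ℤ√2) ^ j = ⟨H j, P j⟩ := by
  induction j with
  | zero => simp; rfl
  | succ j ih =>
    rw [pow_succ, ih, H_succ, P_succ]
    ext <;> simp

/-- Frobenius -/
lemma frob {p : ℕ} (hp : p.Prime) (hp2 : p ≠ 2) (i : ℕ) : ∃ r s : ℤ,
    (H (p * i) : ℤ) = (H i : ℤ) ^ p + p * r ∧
    (P (p * i) : ℤ) = (P i : ℤ) ^ p * 2 ^ (p / 2) + p * s := by
  obtain ⟨r, hr⟩ := exists_add_pow_prime_eq hp ((H i : ℤ) : ℤ√2) ((P i : ℤ) * (⟨0, 1⟩ : ℤ√2))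
  have h1 : ((H i : ℤ) : ℤ√2) + (P i : ℤ) * (⟨0, 1⟩ : ℤ√2) = (⟨1, 1⟩ : ℤ√2) ^ i := by
    rw [zs]
    ext <;> simp
  rw [h1, ← pow_mul, mul_comm i p, zs] at hr
  obtain ⟨k, hk⟩ := hp.odd_of_ne_two hp2
  have h2 : p / 2 = k := by omega
  have h3 : (⟨0, 1⟩ : ℤ√2) ^ p = ((2 ^ k : ℤ) : ℤ√2) * ⟨0, 1⟩ := by
    rw [hk, pow_succ, pow_mul]
    congr 1
    have : (⟨0, 1⟩ : ℤ√2) ^ 2 = ((2 : ℤ) : ℤ√2) := by
      rw [sq]; ext <;> simp
    rw [this]
    push_cast
    rfl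
  rw [mul_pow, h3] at hr
  obtain ⟨w, hw⟩ : ∃ w : ℤ√2, (⟨H (p * i), P (p * i)⟩ : ℤ√2) =
      ((H i : ℤ) : ℤ√2) ^ p + ((P i : ℤ) : ℤ√2) ^ p * (((2 ^ k : ℤ) : ℤ√2) * ⟨0, 1⟩) +
        ((p : ℤ) : ℤ√2) * w := ⟨((H i : ℤ) : ℤ√2) * ((P i : ℤ) * (⟨0, 1⟩ : ℤ√2)) * r,
          hr.trans (by push_cast; ring)⟩
  rw [← Int.cast_pow, ← Int.cast_pow, ← mul_assoc, ← Int.cast_mul] at hw
  refine ⟨w.re, w.im, ?_, ?_⟩
  · have h4 := congrArg Zsqrtd.re hw
    rw [Zsqrtd.re_add, Zsqrtd.re_add, Zsqrtd.re_intCast, Zsqrtd.re_mul, Zsqrtd.re_mul,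
      Zsqrtd.re_intCast, Zsqrtd.im_intCast, Zsqrtd.re_intCast, Zsqrtd.im_intCast] at h4
    simpa using h4
  · have h5 := congrArg Zsqrtd.im hw
    rw [Zsqrtd.im_add, Zsqrtd.im_add, Zsqrtd.im_intCast, Zsqrtd.im_mul, Zsqrtd.im_mul,
      Zsqrtd.re_intCast, Zsqrtd.im_intCast, Zsqrtd.re_intCast, Zsqrtd.im_intCast] at h5
    rw [h2]
    simpa using h5

lemma descend {p : ℕ} (hp : p.Prime) (hp2 : p ≠ 2) (i : ℕ) (h : p ∣ P (p * i)) : p ∣ P i := by
  obtain ⟨r, s, _, h2⟩ := frob hp hp2 i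
  have h3 : (p : ℤ) ∣ (P i : ℤ) ^ p * 2 ^ (p / 2) := by
    have : (p : ℤ) ∣ (P (p * i) : ℤ) := by exact_mod_cast h
    rw [h2] at this
    exact (dvd_add_left (Dvd.intro _ rfl)).1 this
  have h4 : p ∣ P i ^ p * 2 ^ (p / 2) := by exact_mod_cast h3
  rcases hp.dvd_mul.1 h4 with h5 | h5
  · exact hp.dvd_of_dvd_pow h5
  · have := hp.dvd_of_dvd_pow h5
    rw [Nat.prime_dvd_prime_iff_eq hp Nat.prime_two] at this
    exact absurd this hp2

/-- an index prime to `p` -/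
lemma prime_index {p : ℕ} (hp : p.Prime) (hp2 : p ≠ 2) (j : ℕ) (hj : 1 ≤ j) (h : p ∣ P j) :
    ∃ a, a ∣ j ∧ ¬ p ∣ a ∧ p ∣ P a := by
  induction j using Nat.strong_induction_on with
  | _ j ih =>
    by_cases h1 : p ∣ j
    · obtain ⟨i, rfl⟩ := h1
      have hi : 1 ≤ i := by
        rcases Nat.eq_zero_or_pos i with rfl | h
        · simp at hj
        · exact h
      have h2 : i < p * i := by
        have := hp.two_le
        nlinarith
      obtain ⟨a, ha, h3, h4⟩ := ih i h2 hi (descend hp hp2 i h)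
      exact ⟨a, Dvd.dvd.mul_left ha _, h3, h4⟩
    · exact ⟨j, dvd_rfl, h1, h⟩

/-- the rank of apparition divides `p - 1` or `p + 1` -/
lemma rank {p : ℕ} (hp : p.Prime) (hp2 : p ≠ 2) : p ∣ P (p - 1) ∨ p ∣ P (p + 1) := by
  obtain ⟨r, s, h1, h2⟩ := frob hp hp2 1
  rw [mul_one, H_one] at h1
  rw [mul_one, P_one] at h2
  simp only [Nat.cast_one, one_pow, one_mul] at h1 h2
  have h3 : (P (p + 1) : ℤ) = (H p : ℤ) + P p := by rw [P_succ]; push_cast; ring
  have h4 : (P (p - 1) : ℤ) = (H p : ℤ) - P p := by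
    obtain ⟨i, hi⟩ := Nat.exists_eq_add_of_le' hp.one_lt.le
    have : p - 1 = i := by omega
    rw [this, hi, H_succ, P_succ]
    push_cast
    ring
  have h5 : (p : ℤ) ∣ (2 : ℤ) ^ (p - 1) - 1 := by
    have hc : IsCoprime (2 : ℤ) p := by
      rw [Int.isCoprime_iff_gcd_eq_one]
      have := (Nat.coprime_primes Nat.prime_two hp).2 (Ne.symm hp2)
      exact_mod_cast this
    have := Int.ModEq.pow_card_sub_one_eq_one hp hc
    exact (Int.modEq_iff_dvd.1 this.symm)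
  obtain ⟨k, hk⟩ := hp.odd_of_ne_two hp2
  have h6 : p / 2 = k := by omega
  have h7 : p - 1 = k * 2 := by omega
  rw [h7, pow_mul] at h5
  have h8 : (p : ℤ) ∣ (P (p - 1) : ℤ) * P (p + 1) := by
    rw [h3, h4, h1, h2, h6]
    obtain ⟨z, hz⟩ := h5
    refine ⟨2 * r + p * r ^ 2 - z - 2 * 2 ^ k * s - p * s ^ 2, ?_⟩
    linear_combination (-1 : ℤ) * hz
  have h9 : p ∣ P (p - 1) * P (p + 1) := by exact_mod_cast h8
  exact hp.dvd_mul.1 h9

/-- primes dividing `P q`, `q` an odd prime, are larger than `q` -/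
lemma large_factor {p q : ℕ} (hp : p.Prime) (hq : q.Prime) (hp2 : p ≠ 2) (h : p ∣ P q) :
    q < p := by
  by_contra hcon
  push Not at hcon
  have h0 : ¬ p ∣ P 1 := by
    rw [P_one]
    exact fun h => hp.one_lt.ne' (Nat.dvd_one.1 h)
  rcases Nat.lt_or_eq_of_le hcon with h1 | h1
  · rcases rank hp hp2 with h2 | h2
    · have h3 := dvd_gcd hp _ _ h h2
      have h4 : Nat.gcd q (p - 1) = 1 := by
        refine (Nat.Prime.coprime_iff_not_dvd hq).2 fun h5 => ?_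
        have := Nat.le_of_dvd (by have := hp.two_le; omega) h5
        omega
      rw [h4] at h3
      exact h0 h3
    · have h3 := dvd_gcd hp _ _ h h2
      have h4 : Nat.gcd q (p + 1) = 1 := by
        refine (Nat.Prime.coprime_iff_not_dvd hq).2 fun h5 => ?_
        have h6 := Nat.le_of_dvd (by omega) h5
        have h7 : q = p + 1 := by omega
        obtain ⟨k, hk⟩ := hp.odd_of_ne_two hp2
        rcases hq.eq_two_or_odd with h8 | h8
        · have := hp.two_le; omega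
        · omega
      rw [h4] at h3
      exact h0 h3
  · subst h1
    have := descend hp hp2 1 (by rwa [mul_one])
    exact h0 this

lemma P_odd (k : ℕ) : ¬ 2 ∣ P (2 * k + 1) := by
  have h := (norm_even k).2
  intro h2
  obtain ⟨c, hc⟩ := h2
  have h3 : H (2 * k + 1) ^ 2 + 1 = 8 * c ^ 2 := by rw [h, hc]; ring
  have h4 : (H (2 * k + 1) ^ 2 + 1) % 4 = 0 := by omega
  rw [Nat.add_mod, Nat.pow_mod] at h4
  have : H (2 * k + 1) % 4 = 0 ∨ H (2 * k + 1) % 4 = 1 ∨ H (2 * k + 1) % 4 = 2 ∨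
      H (2 * k + 1) % 4 = 3 := by omega
  rcases this with h5 | h5 | h5 | h5 <;> rw [h5] at h4 <;> norm_num at h4

/-- the good indices -/
structure Good (j : ℕ) : Prop where
  odd : Odd j
  three : 3 ∣ j
  sqf : Squarefree j
  pr : ∀ p, p.Prime → p ∣ j → p ≠ 3 → p ∣ P j

/-- the next index -/
def nxt (j : ℕ) : ℕ := 3 * ∏ p ∈ (P j).primeFactors, p

lemma good_three : Good 3 where
  odd := by decide
  three := dvd_rfl
  sqf := Nat.prime_three.squarefree
  pr := fun p hp h h3 => absurd ((Nat.prime_dvd_prime_iff_eq hp Nat.prime_three).1 h) h3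

lemma not_three {j : ℕ} (hj : Odd j) : ¬ 3 ∣ P j := by
  intro h
  have h4 : 3 ∣ P 4 := by decide
  have := dvd_gcd Nat.prime_three _ _ h h4
  have h5 : Nat.gcd j 4 = 1 := by
    have : Nat.Coprime j (2 ^ 2) := Nat.Coprime.pow_right 2 (Nat.coprime_two_right.2 hj)
    simpa using this
  rw [h5, P_one] at this
  omega

section
variable {j : ℕ} (hj : Good j)
include hj

lemma pos : 1 ≤ j := hj.odd.pos

lemma pf_odd (p : ℕ) (hp : p ∈ (P j).primeFactors) : p ≠ 2 := by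
  rintro rfl
  obtain ⟨k, rfl⟩ := hj.odd
  exact P_odd k (Nat.dvd_of_mem_primeFactors hp)

lemma pf_three (p : ℕ) (hp : p ∈ (P j).primeFactors) : p ≠ 3 := by
  rintro rfl
  exact not_three hj.odd (Nat.dvd_of_mem_primeFactors hp)

lemma prime_dvd_nxt {p : ℕ} (hp : p.Prime) : p ∣ nxt j ↔ p = 3 ∨ p ∣ P j := by
  have hP : P j ≠ 0 := by have := P_pos j (pos hj); omega
  unfold nxt
  rw [hp.dvd_mul, Nat.prime_dvd_prime_iff_eq hp Nat.prime_three,
    Prime.dvd_finsetProd_iff hp.prime]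
  constructor
  · rintro (h | ⟨q, hq, h⟩)
    · exact Or.inl h
    · rw [Nat.prime_dvd_prime_iff_eq hp (Nat.prime_of_mem_primeFactors hq)] at h
      subst h
      exact Or.inr (Nat.dvd_of_mem_primeFactors hq)
  · rintro (h | h)
    · exact Or.inl h
    · exact Or.inr ⟨p, Nat.mem_primeFactors.2 ⟨hp, h, hP⟩, dvd_rfl⟩

lemma nxt_sqf : Squarefree (nxt j) := by
  unfold nxt
  rw [Nat.squarefree_mul]
  · refine ⟨Nat.prime_three.squarefree, ?_⟩
    refine Finset.squarefree_prod_of_pairwise_isCoprime ?_ ?_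
    · intro p hp q hq hpq
      exact Nat.coprime_iff_isRelPrime.1 ((Nat.coprime_primes (Nat.prime_of_mem_primeFactors hp)
        (Nat.prime_of_mem_primeFactors hq)).2 hpq)
    · intro p hp
      exact (Nat.prime_of_mem_primeFactors hp).squarefree
  · refine Nat.Coprime.prod_right fun p hp => ?_
    exact (Nat.coprime_primes Nat.prime_three (Nat.prime_of_mem_primeFactors hp)).2
      (pf_three hj p hp).symm

lemma nxt_ne : nxt j ≠ 0 := (nxt_sqf hj).ne_zero

lemma dvd_nxt : j ∣ nxt j := by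
  have h0 : ∏ p ∈ j.primeFactors, p ∣ nxt j := by
    refine Finset.prod_primes_dvd _ (fun p hp => (Nat.prime_of_mem_primeFactors hp).prime) ?_
    intro p hp
    have hp' := Nat.prime_of_mem_primeFactors hp
    rw [prime_dvd_nxt hj hp']
    by_cases h : p = 3
    · exact Or.inl h
    · exact Or.inr (hj.pr p hp' (Nat.dvd_of_mem_primeFactors hp) h)
  rwa [Nat.prod_primeFactors_of_squarefree hj.sqf] at h0

lemma good_nxt : Good (nxt j) where
  odd := by
    rw [← Nat.not_even_iff_odd, even_iff_two_dvd, prime_dvd_nxt hj Nat.prime_two]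
    rintro (h | h)
    · omega
    · obtain ⟨k, rfl⟩ := hj.odd
      exact P_odd k h
  three := Dvd.intro _ rfl
  sqf := nxt_sqf hj
  pr := by
    intro p hp h h3
    rcases (prime_dvd_nxt hj hp).1 h with h1 | h1
    · exact absurd h1 h3
    · exact h1.trans (P_dvd (dvd_nxt hj))

lemma lt_nxt : j < nxt j := by
  refine lt_of_le_of_ne (Nat.le_of_dvd (Nat.pos_of_ne_zero (nxt_ne hj)) (dvd_nxt hj)) ?_
  intro heq
  -- the largest prime factor of `j`
  have hne : j.primeFactors.Nonempty := ⟨3, Nat.mem_primeFactors.2 ⟨Nat.prime_three, hj.three,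
    by have := pos hj; omega⟩⟩
  obtain ⟨q, hq, hmax⟩ := Finset.exists_max_image j.primeFactors id hne
  have hqp := Nat.prime_of_mem_primeFactors hq
  have hq3 : 3 ≤ q := hmax 3 (Nat.mem_primeFactors.2 ⟨Nat.prime_three, hj.three,
    by have := pos hj; omega⟩)
  have h1 : P q ≠ 1 := by
    obtain ⟨i, rfl⟩ := Nat.exists_eq_add_of_le' hq3
    have e : P (i + 3) = H (i + 2) + P (i + 2) := P_succ _
    have e2 := H_pos (i + 2)
    have e3 := P_pos (i + 2) (by omega)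
    omega
  obtain ⟨p, hp, hpq⟩ := Nat.exists_prime_and_dvd h1
  have hPj : p ∣ P j := hpq.trans (P_dvd (Nat.dvd_of_mem_primeFactors hq))
  have hp2 : p ≠ 2 := by
    rintro rfl
    obtain ⟨k, rfl⟩ := hj.odd
    exact P_odd k hPj
  have h2 := large_factor hp hqp hp2 hpq
  have h3 : p ∣ j := by
    rw [heq, prime_dvd_nxt hj hp]
    exact Or.inr hPj
  have h4 := hmax p (Nat.mem_primeFactors.2 ⟨hp, h3, by have := pos hj; omega⟩)
  simp only [id] at h4
  omega

/-- the square of `nxt j / 3` divides `P (nxt j)` -/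
lemma sq_dvd_nxt : (∏ p ∈ (P j).primeFactors, p) ^ 2 ∣ P (nxt j) := by
  rw [← Finset.prod_pow]
  refine Finset.prod_dvd_of_isRelPrime ?_ ?_
  · intro p hp q hq hpq
    exact Nat.coprime_iff_isRelPrime.1 (Nat.Coprime.pow 2 2 ((Nat.coprime_primes
      (Nat.prime_of_mem_primeFactors hp) (Nat.prime_of_mem_primeFactors hq)).2 hpq))
  · intro p hp
    have hp' := Nat.prime_of_mem_primeFactors hp
    obtain ⟨a, ha, hpa, hPa⟩ := prime_index hp' (pf_odd hj p hp) j (pos hj)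
      (Nat.dvd_of_mem_primeFactors hp)
    have h1 : a * p ∣ nxt j := by
      refine Nat.Coprime.mul_dvd_of_dvd_of_dvd ?_ (ha.trans (dvd_nxt hj)) ?_
      · exact ((Nat.Prime.coprime_iff_not_dvd hp').2 hpa).symm
      · rw [prime_dvd_nxt hj hp']
        exact Or.inr (Nat.dvd_of_mem_primeFactors hp)
    exact (sq_dvd hp'.one_lt.le hPa).trans (P_dvd h1)

end

end Pool.Agent.Q259.PW
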